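import Pool.Agent.FU3.Defs
import Pool.Agent.Helper3_FU2.Fou
import Pool.Agent.Helper10_FU3.SWC
import Pool.Agent.Helper13_FU3.FI4
import Pool.Agent.Helper13_FU3.GRG
import Pool.Agent.Helper19_FU3.ITR
import Pool.Agent.Helper20_FU3.NUG
import Pool.Agent.Helper21_FUR.Mat
import Pool.Agent.Helper28_FU3.ENP
import Pool.Agent.Helper42_FU2.OBL
import Pool.Agent.Helper48_FU3.DTR
import Pool.Agent.Helper48_FU3.SWX
import Pool.Agent.Helper56_FU3.NQG
import Pool.Agent.Helper60_FU3.CNT
import Pool.Agent.Helper62_FUR.SEM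
import Pool.Agent.Helper62_FUR.SZQ
import Pool.Agent.Helper69_FU2.Dgr
import Pool.Agent.Helper69_FU2.Dl2
import Pool.Agent.Helper69_FU3.Deg
import Pool.Agent.Helper76_FU3.CPF
import Pool.Agent.Helper86_FU3.DTF
import Pool.Agent.Helper88_FUR.Fls
import Pool.Agent.Helper9_FU3.SWE
import Pool.Agent.Helper90_FU3.ADL
import Pool.Agent.Helper92_FU3.STP
import Pool.Agent.Helper94_FU3.CLN

/-!
# Frege + universal reduction: premises which are small formulas over formulas of bounded depth

A lower bound for the refutations of the parity formulas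
`∃ x_0 … x_{n-1} ∀ z ∃ t_0 … t_{n-1}. (t_0 ↔ x_0) ∧ ⋀_i (t_{i+1} ↔ t_i ⊕ x_{i+1}) ∧ (z ↔ ¬ t_{n-1})`
in Frege + `∀`-reduction, with arbitrary sound schematic rules, in which every premise of a
`∀`-reduction is equivalent to one of at most `2 ^ r` formulas, each of which is obtained from a formula
with at most `s` symbols by substituting formulas of alternation depth at most `d` with at most `2 ^ r`
symbols for the variables: `|Φ|² ≤ C s r^(2d+6)`, where `C` depends only on `d`.  So for
`s ≤ |Φ|^(2-ε)` the number of (pairwise inequivalent) premises or the size of the parts of bounded depth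
is at least `2 ^ (c |Φ|^(ε/(2d+6)))`.  All the other formulas of the refutation, and the formulas which
are substituted in the `∀`-reductions, are arbitrary: neither their size nor their depth is bounded.

The definitions are in `Pool.Agent.FUR.Defs`, `Pool.Agent.FU2.Defs` and `Pool.Agent.FU3.Defs`:

* `PF`: propositional formulas in `∧, ∨, ¬` with constants; `PF.size` number of symbols, `PF.eval`
  truth value, `PF.vars` variables, `PF.sub` substitution, `PF.sub1 φ u B` is `φ[u/B]`;
* `QBF`: closed prenex formula (prefix and list of clauses) with the variables `0, 1, 2, …`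
  quantified in this order; `QBF.Closed`, `QBF.IsTrue`, `QBF.size`, `QBF.Univ`;
* `Rule`: schematic rule, `Rule.Sound`;
* `RefP Φ R P Λ k`: the sequence `Λ` of formulas is a derivation from the clauses of `Φ` with the
  rules `R` and `∀`-reduction, with exactly `k` `∀`-reductions, the premises of which are equivalent to
  formulas of the finite set `P`;
* `AD b d φ`: `φ` is a `Σ_d` (`b = true`) resp. `Π_d` (`b = false`) formula (unbounded fan-in);
* `Over d s M L`: `L` is equivalent to a formula `F.sub τ` with `F.size ≤ s` and all `τ v` of depth `≤ d`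
  with at most `M` symbols;
* `QPar n`: the parity formula.
-/

set_option autoImplicit false

namespace Pool.Agent.Results.MP_a6aa4e_lc.BoundedDepthParts

open Pool.Agent.FUR Pool.Agent.FU2 Pool.Agent.FU3

/-- **Theorem.**  For every `d` there is `C` such that for all `n ≥ 1` the parity formula `Φ = QPar n`
is a closed false formula with `n ≤ |Φ| ≤ 34 n`, and for all `r, s ≥ 1` with `|Φ| ≤ 2 ^ r`, every set `R`
of sound schematic rules and every set `P` of at most `2 ^ r` formulas, each of which is equivalent to a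
formula obtained from a formula with at most `s` symbols by substituting formulas of alternation depth
at most `d` with at most `2 ^ r` symbols for the variables: if `Φ` has a refutation in
Frege + `∀`-reduction (with the rules `R`) in which every premise of a `∀`-reduction is equivalent to a
member of `P`, then `|Φ|² ≤ C s r^(2d+6)`. -/
theorem result : ∀ d : ℕ, ∃ C : ℕ, ∀ n : ℕ, 1 ≤ n →
    ((QPar n).Closed ∧ ¬ (QPar n).IsTrue ∧ n ≤ (QPar n).size ∧ (QPar n).size ≤ 34 * n) ∧
    ∀ r s : ℕ, 1 ≤ r → 1 ≤ s → (QPar n).size ≤ 2 ^ r →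
      ∀ R : Set Rule, (∀ ρ ∈ R, ρ.Sound) → ∀ P : Finset PF, P.card ≤ 2 ^ r →
        (∀ L ∈ P, Over d s (2 ^ r) L) → ∀ (Λ : List PF) (k : ℕ), RefP (QPar n) R P Λ k →
        PF.cst false ∈ Λ → (QPar n).size ^ 2 ≤ C * s * r ^ (2 * d + 6) := by
  intro d
  have hSWC := FU3.H10.swc H28.enp
  have hSWX := H48.swx H28.enp H09.swe hSWC H60.cnt
  have hSTP := H92.stp hSWX H48.dtr
  have hITR := FU3.H19.itr H90.adl hSTP H48.dtr
  have hPRS := H3.prs
  have hDEG := FU3.H69.deg hPRS
  have hCLN := H94.cln H42.obl
  have hNQG := H56.nqg hDEG hCLN hPRS H3.drf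
  have hDL2 : DL2Stmt := H69.dl2 (H69.dgr H3.drf) (H3.cnv H3.prs) H3.prk
  obtain ⟨C, hC⟩ := FU3.H13.fi4 hITR H76.cpf H86.dtf hNQG H13.grg H94.cvt H20.nug hDL2 H62.sem H21.mat d
  refine ⟨1156 * C, fun n hn => ?_⟩
  obtain ⟨h1, h2⟩ := H62.szq n hn
  have h3 : n ≤ (QPar n).size := by omega
  have h4 : (QPar n).size ≤ 34 * n := by omega
  refine ⟨⟨h2, H88.fls n hn, h3, h4⟩, fun r s hr hs hle R hR P hP hO Λ k hΛ hb => ?_⟩
  have h5 := hC n r s hn hr hs (h3.trans hle) R hR P hP hO Λ k hΛ hb
  calc (QPar n).size ^ 2 ≤ (34 * n) ^ 2 := Nat.pow_le_pow_left h4 2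
    _ = 1156 * n ^ 2 := by ring
    _ ≤ 1156 * (C * s * r ^ (2 * d + 6)) := Nat.mul_le_mul_left _ h5
    _ = 1156 * C * s * r ^ (2 * d + 6) := by ring

end Pool.Agent.Results.MP_a6aa4e_lc.BoundedDepthParts
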