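import Pool.Agent.FU2.Defs
import Pool.Agent.Helper3_FU2.Fou
import Pool.Agent.Helper9_FU2.FML
import Pool.Agent.Helper9_FU2.TAL
import Pool.Agent.Helper21_FUR.Mat
import Pool.Agent.Helper42_FU2.OBL
import Pool.Agent.Helper42_FU2.FI3
import Pool.Agent.Helper62_FUR.SEM
import Pool.Agent.Helper62_FUR.SZQ
import Pool.Agent.Helper63_FU2.PBK
import Pool.Agent.Helper69_FU2.Dgr
import Pool.Agent.Helper69_FU2.Dl2
import Pool.Agent.Helper69_FU2.Nqb
import Pool.Agent.Helper70_FU2.GR2
import Pool.Agent.Helper70_FU2.UPP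
import Pool.Agent.Helper82_FU2.NU2
import Pool.Agent.Helper88_FUR.Fls
import Pool.Agent.Helper88_FUR.Pfm

/-!
# Frege + universal reduction: the premises of the universal reductions

An exponential lower bound, sharp up to a constant factor in the exponent, for the refutations of the
parity formulas
`∃ x_0 … x_{n-1} ∀ z ∃ t_0 … t_{n-1}. (t_0 ↔ x_0) ∧ ⋀_i (t_{i+1} ↔ t_i ⊕ x_{i+1}) ∧ (z ↔ ¬ t_{n-1})`
in Frege + `∀`-reduction, with arbitrary sound schematic rules, in which every premise of a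
`∀`-reduction is equivalent to a formula with at most `s` symbols.  All the other formulas of the
refutation, and the formulas which are substituted in the `∀`-reductions, are arbitrary: neither their
size nor their depth is bounded.  The number of pairwise inequivalent premises of `∀`-reductions is at
least `2 ^ (c |Φ|² / s) / 2`, and `2 ^ (C |Φ|² / s + 1)` reductions are enough.

The definitions are in `Pool.Agent.FUR.Defs` and `Pool.Agent.FU2.Defs`:

* `PF`: propositional formulas in `∧, ∨, ¬` with constants; `PF.size` number of symbols, `PF.eval`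
  truth value, `PF.vars` variables, `PF.sub` substitution, `PF.sub1 φ u B` is `φ[u/B]`;
* `QBF`: closed prenex formula (prefix and list of clauses) with the variables `0, 1, 2, …`
  quantified in this order; `QBF.Closed`, `QBF.IsTrue`, `QBF.size`, `QBF.Univ`;
* `Rule`: schematic rule, `Rule.Sound`;
* `RefP Φ R P Λ k`: the sequence `Λ` of formulas is a derivation from the clauses of `Φ` with the
  rules `R` and `∀`-reduction, with exactly `k` `∀`-reductions, the premises of which are equivalent to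
  formulas of the finite set `P`;
* `Ref Φ R s Λ k`: the same, where instead the premises and the substituted formulas of the
  `∀`-reductions have at most `s` symbols;
* `QPar n`: the parity formula.
-/

set_option autoImplicit false

namespace Pool.Agent.Results.MP_a6aa4e_lc.Premises

open Pool.Agent.FUR Pool.Agent.FU2

theorem ref_mono {Φ : QBF} {R : Set Rule} {s s' : ℕ} (hs : s ≤ s') {Λ : List PF} {k : ℕ}
    (h : Ref Φ R s Λ k) : Ref Φ R s' Λ k := by
  induction h with
  | nil => exact Ref.nil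
  | clause _ c hc ih => exact Ref.clause ih c hc
  | rule _ r hr τ hp ih => exact Ref.rule ih r hr τ hp
  | red _ L hL u hu hin hlast B hB h1 h2 ih =>
    exact Ref.red ih L hL u hu hin hlast B hB (h1.trans hs) (h2.trans hs)

/-- **Theorem.**  There are constants `c, C > 0` such that for all `n ≥ 1` the parity formula
`Φ = QPar n` is a closed false formula with `n ≤ |Φ| ≤ 34 n`, and
(1) for every set `R` of sound schematic rules, every `s ≥ |Φ|` and every finite set `P` of formulas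
with at most `s` symbols: if `Φ` has a refutation in Frege + `∀`-reduction (with the rules `R`) in which
every premise of a `∀`-reduction is equivalent to a formula of `P`, then
`|P| ≥ 2 ^ (c |Φ|² / s) / 2`;
(2) for every `s ≥ C |Φ|` there is a refutation (with the set of all sound rules) with at most
`2 * 2 ^ (C |Φ|² / s)` `∀`-reductions, in which all premises of `∀`-reductions and all substituted
formulas have at most `s` symbols. -/
theorem result : ∃ c C : ℝ, 0 < c ∧ 0 < C ∧ ∀ n : ℕ, 1 ≤ n →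
    ((QPar n).Closed ∧ ¬ (QPar n).IsTrue ∧ n ≤ (QPar n).size ∧ (QPar n).size ≤ 34 * n) ∧
    (∀ R : Set Rule, (∀ r ∈ R, r.Sound) → ∀ (s : ℕ) (P : Finset PF), (QPar n).size ≤ s →
      (∀ L ∈ P, L.size ≤ s) → ∀ (Λ : List PF) (k : ℕ), RefP (QPar n) R P Λ k →
      PF.cst false ∈ Λ → (2 : ℝ) ^ (c * ((QPar n).size : ℝ) ^ 2 / s) ≤ 2 * P.card) ∧
    (∀ s : ℕ, C * ((QPar n).size : ℝ) ≤ s → ∃ (Λ : List PF) (k : ℕ),
      Ref (QPar n) {r | r.Sound} s Λ k ∧ PF.cst false ∈ Λ ∧
      (k : ℝ) ≤ 2 * (2 : ℝ) ^ (C * ((QPar n).size : ℝ) ^ 2 / s)) := by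
  have hFML : FMLStmt := H09.fml H42.obl H42.lit
  have hNQB : NQBStmt := H69.nqb H3.prs (H09.tal hFML) H3.drf
  have hDL2 : DL2Stmt := H69.dl2 (H69.dgr H3.drf) (H3.cnv H3.prs) H3.prk
  obtain ⟨c, hc, hlow⟩ := H42.fi3 hNQB FU2.H70.gr2 hDL2 H82.nu2 H62.sem H21.mat H88.pfm H62.szq
    H88.fls
  obtain ⟨C0, hup⟩ := FU2.H70.upp H63.pbk
  refine ⟨c, (C0 : ℝ) + 1, hc, by positivity, fun n hn => ?_⟩
  obtain ⟨h1, h5⟩ := hlow n hn
  refine ⟨h1, h5, fun s hs => ?_⟩
  have hnR : (1 : ℝ) ≤ n := by exact_mod_cast hn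
  have hnz : (n : ℝ) ≤ (QPar n).size := by exact_mod_cast h1.2.2.1
  have hC0 : (0 : ℝ) ≤ C0 := by positivity
  have hsn : ((C0 : ℝ) + 1) * n ≤ s :=
    (mul_le_mul_of_nonneg_left hnz (by positivity)).trans hs
  have hspos : (0 : ℝ) < s := lt_of_lt_of_le (by positivity) hsn
  set t : ℝ := ((C0 : ℝ) + 1) * n ^ 2 / s with ht
  have htpos : 0 < t := by positivity
  have htn : t ≤ n := by
    rw [ht, div_le_iff₀ hspos]
    nlinarith
  set m : ℕ := ⌈t⌉₊ with hm
  have hm1 : 1 ≤ m := Nat.one_le_iff_ne_zero.2 (by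
    rw [hm]
    exact (Nat.ceil_pos.2 htpos).ne')
  have hmn : m ≤ n := Nat.ceil_le.2 htn
  have hmt : t ≤ m := Nat.le_ceil t
  have hmt1 : (m : ℝ) < t + 1 := Nat.ceil_lt_add_one htpos.le
  obtain ⟨s', Λ, hR, hbot, hsm⟩ := hup n m hm1 hmn
  have hss : s' ≤ s := by
    have hmpos : (0 : ℝ) < m := by exact_mod_cast hm1
    have e1 : ((s' : ℝ) * m) ≤ (C0 : ℝ) * n ^ 2 := by exact_mod_cast hsm
    have e2 : ((C0 : ℝ) + 1) * n ^ 2 = t * s := by
      rw [ht]
      field_simp
    have e3 : (s' : ℝ) * m ≤ s * m := by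
      have e4 : t * s ≤ m * s := mul_le_mul_of_nonneg_right hmt hspos.le
      nlinarith
    have e5 : (s' : ℝ) ≤ s := le_of_mul_le_mul_right e3 hmpos
    exact_mod_cast e5
  refine ⟨Λ, 2 ^ m, ref_mono hss hR, hbot, ?_⟩
  push_cast
  have e6 : ((2 : ℝ) ^ m) = (2 : ℝ) ^ (m : ℝ) := (Real.rpow_natCast 2 m).symm
  rw [e6]
  have e7 : t + 1 ≤ ((C0 : ℝ) + 1) * ((QPar n).size : ℝ) ^ 2 / s + 1 := by
    have e8 : (n : ℝ) ^ 2 ≤ ((QPar n).size : ℝ) ^ 2 := pow_le_pow_left₀ (by positivity) hnz 2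
    have e9 : t ≤ ((C0 : ℝ) + 1) * ((QPar n).size : ℝ) ^ 2 / s := by
      rw [ht]
      exact div_le_div_of_nonneg_right (mul_le_mul_of_nonneg_left e8 (by positivity)) hspos.le
    linarith
  calc (2 : ℝ) ^ (m : ℝ) ≤ (2 : ℝ) ^ (((C0 : ℝ) + 1) * ((QPar n).size : ℝ) ^ 2 / s + 1) :=
        Real.rpow_le_rpow_of_exponent_le one_le_two (hmt1.le.trans e7)
    _ = 2 * (2 : ℝ) ^ (((C0 : ℝ) + 1) * ((QPar n).size : ℝ) ^ 2 / s) := by
        rw [Real.rpow_add (by norm_num), Real.rpow_one, mul_comm]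

end Pool.Agent.Results.MP_a6aa4e_lc.Premises
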